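import Pool.Agent.K6.H49.RT.Sound2

/-!
# Exact offsets give small response time variability
-/

namespace Pool.Agent.K6.H49.RT

open Finset Pool.Agent.H741R2.PW

theorem count_map_range (D : ℕ) (f : ℕ → ℕ) (x : ℕ) :
    ((List.range D).map f).count x = #{p ∈ range D | f p = x} := by
  rw [List.count, List.countP_map, List.countP_eq_length_filter]
  have : (filter (fun p => f p = x) (range D)) =
      ((List.range D).filter ((fun y => y == x) ∘ f)).toFinset := by
    ext p
    simp
  rw [this, List.toFinset_card_of_nodup (List.nodup_range.filter _)]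

theorem positions_map_range (D : ℕ) (f : ℕ → ℕ) (x p : ℕ) :
    p ∈ positions ((List.range D).map f) x ↔ p < D ∧ f p = x := by
  rw [mem_positions, List.getElem?_map]
  constructor
  · intro h
    rw [Option.map_eq_some_iff] at h
    obtain ⟨a, ha, hax⟩ := h
    rw [List.getElem?_eq_some_iff] at ha
    obtain ⟨h1, h2⟩ := ha
    rw [List.getElem_range] at h2
    rw [List.length_range] at h1
    subst h2
    exact ⟨h1, hax⟩
  · rintro ⟨h1, h2⟩
    rw [List.getElem?_range h1]
    simp [h2]

/-- Two strictly increasing lists with the same elements are equal. -/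
theorem eq_of_pairwise_lt {l l' : List ℕ} (h : l.Pairwise (· < ·)) (h' : l'.Pairwise (· < ·))
    (hm : ∀ x, x ∈ l ↔ x ∈ l') : l = l' := by
  have hn : l.Nodup := h.imp fun h => Nat.ne_of_lt h
  have hn' : l'.Nodup := h'.imp fun h => Nat.ne_of_lt h
  exact ((List.perm_ext_iff_of_nodup hn hn').2 hm).eq_of_pairwise
    (fun a b _ _ h1 h2 => absurd h1 (not_lt.2 h2.le)) h h'

/-- The sum of squares of the almost regular pattern. -/
theorem rtvModel_le (s : List ℕ) (i b c : ℕ) (hb : 0 < b) (hD : 2 * b ≤ s.length)
    (hP : positions s i = (List.range (s.length / b)).map (fun k => c + k * b)) :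
    rtvModel s i ≤ (b : ℚ) ^ 2 := by
  set D := s.length with hDdef
  have hcount : s.count i = D / b := by
    rw [← length_positions, hP]
    simp
  have hd2 : 2 ≤ D / b := (Nat.le_div_iff_mul_le hb).2 hD
  unfold rtvModel
  rw [hcount, if_neg (by omega), ← hDdef, hP]
  obtain ⟨e, he⟩ : ∃ e, D / b = e + 1 := ⟨D / b - 1, by omega⟩
  rw [he, sum_range_succ]
  have hget : ∀ j < e + 1, ((List.range (e + 1)).map (fun k => c + k * b)).getD j 0 = c + j * b := by
    intro j hj
    rw [List.getD_eq_getElem _ _ (by simpa using hj)]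
    simp
  have h1 : ∀ j ∈ range e, distance D ((List.range (e + 1)).map (fun k => c + k * b)) j = b := by
    intro j hj
    rw [mem_range] at hj
    unfold distance
    rw [if_pos (by simpa using hj), hget j (by omega), hget (j + 1) (by omega)]
    push_cast
    ring
  have h2 : distance D ((List.range (e + 1)).map (fun k => c + k * b)) e = D - e * b := by
    unfold distance
    rw [if_neg (by simp), hget e (by omega), hget 0 (by omega)]
    push_cast
    ring
  rw [h2, sum_congr rfl fun j hj => by rw [h1 j hj], sum_const, card_range, nsmul_eq_mul]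
  have hr : (D : ℚ) = b * (e + 1) + (D % b : ℕ) := by
    have := Nat.div_add_mod D b
    rw [he] at this
    exact_mod_cast this.symm
  have hrb : ((D % b : ℕ) : ℚ) ≤ b := by exact_mod_cast (Nat.mod_lt _ hb).le
  have hr0 : (0 : ℚ) ≤ ((D % b : ℕ) : ℚ) := by positivity
  set r : ℚ := ((D % b : ℕ) : ℚ) with hrdef
  push_cast
  have he0 : (0 : ℚ) < (e : ℚ) + 1 := by positivity
  have h3 : (e : ℚ) * ((b : ℚ) - (D : ℚ) / ((e : ℚ) + 1)) ^ 2 +
      ((D : ℚ) - e * b - (D : ℚ) / ((e : ℚ) + 1)) ^ 2 = r ^ 2 * (e / (e + 1)) := by
    rw [hr]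
    field_simp
    ring
  rw [h3]
  have h4 : (e : ℚ) / (e + 1) ≤ 1 := by
    rw [div_le_one he0]
    linarith
  have h5 : r ^ 2 ≤ (b : ℚ) ^ 2 := pow_le_pow_left₀ hr0 hrb 2
  calc r ^ 2 * (e / (e + 1)) ≤ r ^ 2 * 1 := mul_le_mul_of_nonneg_left h4 (sq_nonneg _)
    _ ≤ (b : ℚ) ^ 2 := by linarith

open Classical in
/-- **Completeness.** -/
theorem feasible_of_exact (l : List ℕ) (B : ℕ) (hl : ∀ b ∈ l, 0 < b ∧ b ≤ B) (nf D : ℕ)
    (hsum : (l.map (fun b => D / b)).sum + nf = D) (hD : 2 * B ≤ D)
    (h : Exact (fun i : Fin l.length => l[i])) :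
    ∃ s, Feasible (l.map (fun b => D / b) ++ List.replicate nf 1) s ∧
      rtv (l.map (fun b => D / b) ++ List.replicate nf 1).length s ≤ (l.length * (B * B) : ℕ) := by
  obtain ⟨c, hc⟩ := h
  have hbi : ∀ i : Fin l.length, 0 < l[i] ∧ l[i] ≤ B := fun i => hl _ (List.getElem_mem _)
  -- the positions of the tasks
  let At : Fin l.length → ℕ → Prop := fun i p => p % l[i] = c i % l[i] ∧ p / l[i] < D / l[i]
  have hAtD : ∀ i p, At i p → p < D := by
    intro i p hp
    have h1 := Nat.div_mul_le_self D l[i]
    exact lt_of_lt_of_le ((Nat.div_lt_iff_lt_mul (hbi i).1).1 hp.2) h1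
  have hAtu : ∀ i j p, At i p → At j p → i = j := by
    intro i j p hi hj
    by_contra hne
    apply hc i j hne
    have h1 : p ≡ c i [MOD l[i]] := hi.1
    have h2 : p ≡ c j [MOD l[j]] := hj.1
    exact (h1.symm.of_dvd (Nat.gcd_dvd_left _ _)).trans (h2.of_dvd (Nat.gcd_dvd_right _ _))
  let free : ℕ → Prop := fun p => ¬ ∃ i, At i p
  let F : ℕ → ℕ := fun p => #{q ∈ range p | free q}
  have hF : ∀ t, F (t + 1) = F t + if free t then 1 else 0 := by
    intro t
    simp only [F]
    rw [range_add_one, filter_insert]
    by_cases h : free t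
    · rw [if_pos h, card_insert_of_notMem (by simp), if_pos h]
    · rw [if_neg h, if_neg h, add_zero]
  have hFmono : ∀ t u, t ≤ u → F t ≤ F u := by
    intro t u htu
    exact card_le_card (filter_subset_filter _ (range_subset_range.2 htu))
  -- the positions of a task form a progression
  have hAtiff : ∀ (i : Fin l.length) p, At i p ↔ p ∈ (List.range (D / l[i])).map
      (fun q => c i % l[i] + q * l[i]) := by
    intro i p
    rw [List.mem_map]
    have hb0 := (hbi i).1
    have hcl : c i % l[i] < l[i] := Nat.mod_lt _ hb0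
    constructor
    · rintro ⟨h1, h2⟩
      refine ⟨p / l[i], List.mem_range.2 h2, ?_⟩
      rw [← h1, mul_comm]
      exact Nat.mod_add_div p l[i]
    · rintro ⟨q, hq, rfl⟩
      rw [List.mem_range] at hq
      refine ⟨?_, ?_⟩
      · rw [Nat.add_mul_mod_self_right, Nat.mod_mod]
      · rw [Nat.add_mul_div_right _ _ hb0, Nat.div_eq_of_lt hcl, zero_add]
        exact hq
  have hprog : ∀ i : Fin l.length, ((List.range (D / l[i])).map
      (fun q => c i % l[i] + q * l[i])).Pairwise (· < ·) := by
    intro i
    rw [List.pairwise_map]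
    refine List.pairwise_lt_range.imp fun {a b} hab => ?_
    have := Nat.mul_lt_mul_of_pos_right hab (hbi i).1
    omega
  -- the number of the free positions
  have hcardAt : ∀ i : Fin l.length, #{p ∈ range D | At i p} = D / l[i] := by
    intro i
    have h1 : (filter (fun p => At i p) (range D)) = ((List.range (D / l[i])).map
        (fun q => c i % l[i] + q * l[i])).toFinset := by
      ext p
      rw [mem_filter, mem_range, List.mem_toFinset, ← hAtiff]
      exact ⟨fun h => h.2, fun h => ⟨hAtD i p h, h⟩⟩
    rw [h1, List.toFinset_card_of_nodup ((hprog i).imp fun h => Nat.ne_of_lt h)]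
    simp
  have hFD : F D = nf := by
    have h1 := card_filter_add_card_filter_not (s := range D) (fun u => ∃ i, At i u)
    have h2 : #{u ∈ range D | ∃ i, At i u} = ∑ i : Fin l.length, D / l[i] := by
      have h3 : (filter (fun u => ∃ i, At i u) (range D)) =
          univ.biUnion (fun i : Fin l.length => filter (fun p => At i p) (range D)) := by
        ext u
        simp only [mem_filter, mem_biUnion, mem_univ, true_and]
        exact ⟨fun ⟨h1, i, h2⟩ => ⟨i, h1, h2⟩, fun ⟨i, h1, h2⟩ => ⟨h1, i, h2⟩⟩
      rw [h3, card_biUnion]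
      · exact sum_congr rfl fun i _ => hcardAt i
      · intro i _ j _ hij
        change Disjoint _ _
        rw [disjoint_left]
        intro p hp hp'
        rw [mem_filter] at hp hp'
        exact hij (hAtu i j p hp.2 hp'.2)
    rw [card_range, h2] at h1
    have h4 : (l.map (fun b => D / b)).sum = ∑ i : Fin l.length, D / l[i] := by
      rw [← List.sum_ofFn]
      congr 1
      apply List.ext_getElem <;> simp
    rw [h4] at hsum
    change #{u ∈ range D | ¬ ∃ i, At i u} = nf
    omega
  -- the sequence
  let f : ℕ → ℕ := fun p => if h : ∃ i, At i p then ((Classical.choose h : Fin l.length) : ℕ) else l.length + F p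
  have hf1 : ∀ (i : Fin l.length) p, f p = i ↔ At i p := by
    intro i p
    by_cases h : ∃ i, At i p
    · simp only [f, dif_pos h]
      constructor
      · intro h1
        rw [← Fin.ext h1]
        exact Classical.choose_spec h
      · intro h1
        rw [hAtu _ _ p (Classical.choose_spec h) h1]
    · simp only [f, dif_neg h]
      constructor
      · intro h1
        have := i.2
        omega
      · intro h1
        exact absurd ⟨i, h1⟩ h
  have hf2 : ∀ q p, f p = l.length + q ↔ free p ∧ F p = q := by
    intro q p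
    by_cases h : ∃ i, At i p
    · simp only [f, dif_pos h]
      constructor
      · intro h1
        have := (Classical.choose h).2
        omega
      · rintro ⟨h1, _⟩
        exact absurd h h1
    · simp only [f, dif_neg h]
      constructor
      · intro h1
        exact ⟨h, by omega⟩
      · rintro ⟨_, h1⟩
        omega
  set s := (List.range D).map f with hs
  have hslen : s.length = D := by simp [hs]
  have hpos : ∀ i : Fin l.length, positions s i = (List.range (D / l[i])).map
      (fun q => c i % l[i] + q * l[i]) := by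
    intro i
    refine eq_of_pairwise_lt (positions_pairwise _ _) (hprog i) fun p => ?_
    rw [hs, positions_map_range, hf1, ← hAtiff]
    exact ⟨fun h => h.2, fun h => ⟨hAtD i p h, h⟩⟩
  have hcount1 : ∀ i : Fin l.length, s.count (i : ℕ) = D / l[i] := by
    intro i
    rw [← length_positions, hpos]
    simp
  have hcount2 : ∀ q < nf, s.count (l.length + q) = 1 := by
    intro q hq
    rw [hs, count_map_range, card_eq_one]
    have hex : ∃ p, q < F p := ⟨D, by rw [hFD]; exact hq⟩
    have h1 := Nat.find_spec hex
    have h0 : Nat.find hex ≠ 0 := by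
      intro h0
      rw [h0] at h1
      simp [F] at h1
    have h2 := Nat.find_min hex (m := Nat.find hex - 1) (by omega)
    have h3 : Nat.find hex ≤ D := Nat.find_min' hex (by rw [hFD]; exact hq)
    obtain ⟨p, hp⟩ : ∃ p, Nat.find hex = p + 1 := ⟨Nat.find hex - 1, by omega⟩
    rw [hp] at h1 h2 h3
    rw [Nat.add_sub_cancel] at h2
    rw [hF] at h1
    have hfree : free p := by
      by_cases hno : free p
      · exact hno
      · rw [if_neg hno] at h1
        omega
    rw [if_pos hfree] at h1
    refine ⟨p, ?_⟩
    ext u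
    rw [mem_filter, mem_range, mem_singleton, hf2]
    constructor
    · rintro ⟨_, h4, h5⟩
      rcases Nat.lt_trichotomy u p with h | h | h
      · have h6 := hFmono (u + 1) p h
        rw [hF, if_pos h4] at h6
        omega
      · exact h
      · have h6 := hFmono (p + 1) u h
        rw [hF, if_pos hfree] at h6
        omega
    · rintro rfl
      exact ⟨by omega, hfree, by omega⟩
  have hlen : (l.map (fun b => D / b) ++ List.replicate nf 1).length = l.length + nf := by simp
  refine ⟨s, ⟨?_, ?_, ?_⟩, ?_⟩
  · rw [hslen, List.sum_append, List.sum_replicate, smul_eq_mul, mul_one, hsum]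
  · intro x hx
    rw [hlen]
    rw [hs, List.mem_map] at hx
    obtain ⟨p, hp, rfl⟩ := hx
    rw [List.mem_range] at hp
    by_cases h : ∃ i, At i p
    · obtain ⟨i, hi⟩ := h
      rw [(hf1 i p).2 hi]
      have := i.2
      omega
    · rw [(hf2 (F p) p).2 ⟨h, rfl⟩]
      have h1 := hFmono (p + 1) D hp
      rw [hF, if_pos h, hFD] at h1
      omega
  · intro i hi
    rw [hlen] at hi
    by_cases h : i < l.length
    · rw [hcount1 ⟨i, h⟩, List.getElem_append_left (by simpa using h)]
      simp
    · obtain ⟨q, rfl⟩ : ∃ q, i = l.length + q := ⟨i - l.length, by omega⟩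
      rw [hcount2 q (by omega), List.getElem_append_right (by simp)]
      simp
  · rw [hlen]
    unfold rtv
    rw [sum_range_add]
    have h1 : ∑ q ∈ range nf, rtvModel s (l.length + q) = 0 := by
      refine sum_eq_zero fun q hq => ?_
      unfold rtvModel
      rw [if_pos (hcount2 q (mem_range.1 hq))]
    rw [h1, add_zero, ← Fin.sum_univ_eq_sum_range (fun i => rtvModel s i)]
    have h2 : ∀ i : Fin l.length, rtvModel s i ≤ (B : ℚ) * B := by
      intro i
      have h3 := rtvModel_le s i l[i] (c i % l[i]) (hbi i).1 (by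
        rw [hslen]
        have := (hbi i).2
        omega) (by rw [hslen]; exact hpos i)
      have h4 : ((l[i] : ℕ) : ℚ) ≤ B := by exact_mod_cast (hbi i).2
      have h5 : ((l[i] : ℕ) : ℚ) ^ 2 ≤ (B : ℚ) ^ 2 := pow_le_pow_left₀ (by positivity) h4 2
      rw [← pow_two]
      exact h3.trans h5
    refine (sum_le_sum fun i _ => h2 i).trans ?_
    rw [sum_const, card_univ, Fintype.card_fin, nsmul_eq_mul]
    push_cast
    exact le_rfl

end Pool.Agent.K6.H49.RT
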