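import Pool.Agent.NPC.Defs

/-!
# Response time variability: definitions

The models are numbered `0, …, n - 1` and the positions of a sequence are numbered `0, …, D - 1`.
-/

namespace Pool.Agent.K6.H49.RT

open Pool.Agent.NPC

/-- The positions (numbered from `0`) at which model `i` occurs in the sequence `s`, in increasing
order. -/
def positions (s : List ℕ) (i : ℕ) : List ℕ :=
  (List.range s.length).filter (fun p => decide (s[p]? = some i))

/-- The `j`-th distance (`j` counted from `0`) of a model whose positions in a cyclic sequence of
length `D` are listed by `P`: the difference of the next position and the `j`-th one, and for the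
last position the distance around the cycle to the first one. -/
def distance (D : ℕ) (P : List ℕ) (j : ℕ) : ℤ :=
  if j + 1 < P.length then (P.getD (j + 1) 0 : ℤ) - (P.getD j 0 : ℤ)
  else (D : ℤ) + (P.getD 0 0 : ℤ) - (P.getD j 0 : ℤ)

/-- The response time variability of model `i` in the sequence `s`. -/
def rtvModel (s : List ℕ) (i : ℕ) : ℚ :=
  if s.count i = 1 then 0 else
    ∑ j ∈ Finset.range (s.count i),
      ((distance s.length (positions s i) j : ℚ) - (s.length : ℚ) / (s.count i : ℚ)) ^ 2

/-- The total response time variability of a sequence over the models `0, …, n - 1`. -/
def rtv (n : ℕ) (s : List ℕ) : ℚ := ∑ i ∈ Finset.range n, rtvModel s i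

/-- The sequence `s` is feasible for the demands `d`: its length is the sum of the demands, it is a
sequence of models, and every model occurs as often as its demand says. -/
structure Feasible (d : List ℕ) (s : List ℕ) : Prop where
  length : s.length = d.sum
  mem : ∀ i ∈ s, i < d.length
  count : ∀ i, (h : i < d.length) → s.count i = d[i]

/-- A list of demands is an instance: there are at least two models and the demands are positive. -/
def Valid (d : List ℕ) : Prop := 2 ≤ d.length ∧ ∀ x ∈ d, 1 ≤ x

/-- The decision version of the response time variability problem: `x` consists of the list of the
demands and of the rational bound. -/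
def RTV (x : List ℕ × ℚ) : Prop :=
  Valid x.1 ∧ ∃ s, Feasible x.1 s ∧ rtv x.1.length s ≤ x.2

/-- The decision version of the response time variability problem, the demands being written in
unary: the demand `d` is given as a list of length `d`. -/
def RTVUnary (x : List (List Unit) × ℚ) : Prop := RTV (x.1.map List.length, x.2)

end Pool.Agent.K6.H49.RT
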