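import Pool.Agent.K6.H49.RT.Compl
import Pool.Agent.H741R2.PWPoly

/-!
# The reduction from 3SAT to the response time variability problem
-/

namespace Pool.Agent.K6.H49.RT

open Pool.Agent.NPC Pool.Agent.H741R2.PW

/-- The bound for the response time variability. -/
def RR (m : ℕ) : ℕ := nt m * (BP m * BP m)

/-- The length of the sequences. -/
def DD (m : ℕ) : ℕ := (4 * RR m + 1) * (BP m + 4 * RR m + BP m * BP m) + 4

/-- The number of the models with demand `1` that are added. -/
def nd (φ : Cn) : ℕ := DD φ.length - ((tl φ).map (fun b => DD φ.length / b)).sum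

/-- The demands. -/
def dem (φ : Cn) : List ℕ :=
  (tl φ).map (fun b => DD φ.length / b) ++ List.replicate (nd φ) 1

/-- The instance. -/
def rinst (φ : Cn) : List ℕ × ℚ := (dem φ, ((RR φ.length : ℕ) : ℚ))

theorem BP_pos (m : ℕ) : 0 < BP m := by
  unfold BP
  omega

theorem DD_ge (m : ℕ) : 2 * BP m ≤ DD m ∧ 4 ≤ DD m := by
  have h := BP_pos m
  unfold DD
  refine ⟨?_, by omega⟩
  have h1 : 1 * (BP m + 4 * RR m + BP m * BP m) ≤
      (4 * RR m + 1) * (BP m + 4 * RR m + BP m * BP m) := Nat.mul_le_mul (by omega) le_rfl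
  have h2 : BP m * 1 ≤ BP m * BP m := Nat.mul_le_mul le_rfl h
  omega

theorem tl_bounds (φ : Cn) : ∀ b ∈ tl φ, 2 * nt φ.length ≤ b ∧ 0 < b ∧ b ≤ BP φ.length := by
  intro b hb
  unfold tl at hb
  rw [List.mem_map] at hb
  obtain ⟨x, hx, rfl⟩ := hb
  exact per_bounds hx

theorem tl_length (φ : Cn) : (tl φ).length ≤ nt φ.length := by
  unfold tl
  rw [List.length_map]
  exact tasks_length_le _ _ _

theorem sum_div_le (φ : Cn) :
    2 * ((tl φ).map (fun b => DD φ.length / b)).sum ≤ DD φ.length := by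
  set m := φ.length with hm
  rcases Nat.eq_zero_or_pos (nt m) with h0 | h0
  · have h1 := tl_length φ
    rw [← hm] at h1
    have h2 : tl φ = [] := List.eq_nil_of_length_eq_zero (by omega)
    rw [h2]
    simp
  · have h1 : ((tl φ).map (fun b => DD m / b)).sum ≤
        ((tl φ).map (fun b => DD m / b)).length • (DD m / (2 * nt m)) := by
      refine List.sum_le_card_nsmul _ _ fun x hx => ?_
      rw [List.mem_map] at hx
      obtain ⟨b, hb, rfl⟩ := hx
      exact Nat.div_le_div_left (tl_bounds φ b hb).1 (by omega)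
    rw [List.length_map, smul_eq_mul] at h1
    have h2 : (tl φ).length * (DD m / (2 * nt m)) ≤ nt m * (DD m / (2 * nt m)) :=
      Nat.mul_le_mul_right _ (tl_length φ)
    have h3 := Nat.div_mul_le_self (DD m) (2 * nt m)
    have h4 : 2 * (nt m * (DD m / (2 * nt m))) = DD m / (2 * nt m) * (2 * nt m) := by ring
    omega

theorem nd_spec (φ : Cn) :
    ((tl φ).map (fun b => DD φ.length / b)).sum + nd φ = DD φ.length ∧
      DD φ.length ≤ 2 * nd φ := by
  have h := sum_div_le φ
  unfold nd
  omega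

theorem dem_valid (φ : Cn) : Valid (dem φ) := by
  have h1 := nd_spec φ
  have h2 := DD_ge φ.length
  refine ⟨?_, ?_⟩
  · unfold dem
    rw [List.length_append, List.length_replicate]
    omega
  · intro x hx
    unfold dem at hx
    rw [List.mem_append] at hx
    rcases hx with hx | hx
    · rw [List.mem_map] at hx
      obtain ⟨b, hb, rfl⟩ := hx
      have h3 := tl_bounds φ b hb
      exact (Nat.le_div_iff_mul_le h3.2.1).2 (by omega)
    · rw [List.eq_of_mem_replicate hx]

theorem dem_sum (φ : Cn) : (dem φ).sum ≤ 2 * (dem φ).length := by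
  have h1 := nd_spec φ
  unfold dem
  rw [List.sum_append, List.sum_replicate, smul_eq_mul, mul_one, List.length_append,
    List.length_replicate]
  omega

/-- **Correctness of the reduction.** -/
theorem rinst_correct (φ : Cn) : SAT3 φ ↔ RTV (rinst φ) := by
  set m := φ.length with hm
  have hnd := nd_spec φ
  rw [← hm] at hnd
  have hlen := tl_length φ
  rw [← hm] at hlen
  have hb : ∀ b ∈ tl φ, 0 < b ∧ b ≤ BP m := fun b hb => (tl_bounds φ b hb).2
  have hDD := DD_ge m
  have hex : Exact (fun i : Fin (tl φ).length => (tl φ)[i]) ↔ SAT3 φ := by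
    rw [satT_iff]
    have h1 := exact_iff (tasks φ.length (lv φ) (ls φ)) tasks_nodup (per φ.length (pr φ.length))
    refine h1.trans ?_
    constructor
    · intro h
      exact sat_of_exact (fun i hi => (pr_spec hi).1) (fun i hi j hj h => pr_inj hi hj h) h
    · intro h
      refine exact_of_sat (fun i hi => (pr_spec hi).1) (fun i hi j hj h => pr_inj hi hj h)
        (fun i hi => ?_) h
      have := (pr_spec hi).2.1
      unfold nt at this
      omega
  have hRR : (tl φ).length * (BP m * BP m) ≤ RR m := Nat.mul_le_mul_right _ hlen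
  rw [← hex]
  constructor
  · intro h
    refine ⟨dem_valid φ, ?_⟩
    obtain ⟨s, hs1, hs2⟩ := feasible_of_exact (tl φ) (BP m) hb (nd φ) (DD m) hnd.1 hDD.1 h
    refine ⟨s, hs1, hs2.trans ?_⟩
    change (((tl φ).length * (BP m * BP m) : ℕ) : ℚ) ≤ ((RR m : ℕ) : ℚ)
    exact_mod_cast hRR
  · rintro ⟨_, s, hs1, hs2⟩
    refine exact_of_feasible (tl φ) (BP m) hb (BP_pos m) (nd φ) (DD m) hnd.1 (RR m) ?_ s hs1 hs2
    have h1 : 2 * RR m + 2 * ((tl φ).length * (BP m * BP m)) ≤ 4 * RR m := by omega
    calc (2 * RR m + 2 * ((tl φ).length * (BP m * BP m)) + 1) *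
          (BP m + (2 * RR m + 2 * ((tl φ).length * (BP m * BP m))) + BP m * BP m)
        ≤ (4 * RR m + 1) * (BP m + 4 * RR m + BP m * BP m) :=
          Nat.mul_le_mul (by omega) (by omega)
      _ ≤ DD m := by unfold DD; omega

/-! ## Polynomial time -/

theorem natCast_rat_poly {α : Type} [TEnc α] {f : α → ℕ} (hf : Poly f) :
    Poly (fun a => ((f a : ℕ) : ℚ)) := by
  refine Poly.of_toT ((Poly.pair (Poly.pair (NPC.Poly.const false) hf)
    (NPC.Poly.const (1 : ℕ))).toT'.congr fun a => ?_)
  change _ = toT (((f a : ℕ) : ℚ).num, ((f a : ℕ) : ℚ).den)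
  have h1 : ((f a : ℕ) : ℚ).num = (f a : ℤ) := by simp
  have h2 : ((f a : ℕ) : ℚ).den = 1 := by simp
  rw [h1, h2]
  change _ = T.node (toT (decide ((f a : ℤ) < 0), ((f a : ℤ)).natAbs)) (toT 1)
  have h3 : decide ((f a : ℤ) < 0) = false := by simp
  rw [h3, Int.natAbs_natCast]
  rfl

theorem RR_u : UPoly (fun φ : Cn => RR φ.length) := UPoly.mul nt_u (UPoly.mul BP_u BP_u)

theorem DD_u : UPoly (fun φ : Cn => DD φ.length) := by
  have h4 : UPoly (fun φ : Cn => 4 * RR φ.length) := UPoly.mul (UPoly.const 4) RR_u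
  exact UPoly.add (UPoly.mul (UPoly.add h4 (UPoly.const 1)) (UPoly.add (UPoly.add BP_u h4)
    (UPoly.mul BP_u BP_u))) (UPoly.const 4)

theorem dl_poly : Poly (fun φ : Cn => (tl φ).map (fun b => DD φ.length / b)) :=
  NPC.Poly.map (F := fun (φ : Cn) (b : ℕ) => DD φ.length / b) tl_poly
    (Poly.div (DD_u.toPoly.comp (Poly.fst Poly.id)) (Poly.snd Poly.id))

theorem nd_poly : Poly nd := Poly.sub DD_u.toPoly (Poly.sum dl_poly)

theorem dem_poly : Poly dem :=
  Poly.append dl_poly (replicate_poly (UPoly.of_le nd_poly DD_u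
    (fun φ => Nat.sub_le _ _)) (NPC.Poly.const 1))

theorem rinst_poly : Poly rinst := Poly.pair dem_poly (natCast_rat_poly RR_u.toPoly)

/-- The demands in unary. -/
def demU (φ : Cn) : List (List Unit) := (dem φ).map (fun b => List.replicate b ())

theorem demU_poly : Poly demU := by
  have h1 : UPoly (fun p : Cn × ℕ => min p.2 (DD p.1.length)) :=
    UPoly.of_le (n := fun p : Cn × ℕ => DD p.1.length)
      (Poly.min (Poly.snd Poly.id) (DD_u.toPoly.comp (Poly.fst Poly.id)))
      (DD_u.comp (Poly.fst Poly.id)) (fun p => Nat.min_le_right _ _)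
  refine (NPC.Poly.map (l := dem) (F := fun (φ : Cn) b => List.replicate
    (min b (DD φ.length)) ()) dem_poly h1).congr fun φ => ?_
  unfold demU
  refine List.map_congr_left fun b hb => ?_
  rw [Nat.min_eq_left]
  have h2 := DD_ge φ.length
  unfold dem at hb
  rw [List.mem_append] at hb
  rcases hb with hb | hb
  · rw [List.mem_map] at hb
    obtain ⟨x, hx, rfl⟩ := hb
    exact Nat.div_le_self _ _
  · rw [List.eq_of_mem_replicate hb]
    omega

/-- The instance with the demands in unary. -/
def rinstU (φ : Cn) : List (List Unit) × ℚ := (demU φ, ((RR φ.length : ℕ) : ℚ))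

theorem rinstU_poly : Poly rinstU := Poly.pair demU_poly (natCast_rat_poly RR_u.toPoly)

theorem rinstU_correct (φ : Cn) : SAT3 φ ↔ RTVUnary (rinstU φ) := by
  unfold RTVUnary rinstU demU
  rw [List.map_map]
  have : (List.length ∘ fun b => List.replicate b ()) = (id : ℕ → ℕ) := by
    funext b
    simp
  rw [this, List.map_id]
  exact rinst_correct φ

theorem hardI_rtvUnary : HardI RTVUnary := hardI_SAT3.trans rinstU_poly rinstU_correct

theorem hardPr_rtv : HardPr (fun x : List ℕ × ℚ => Valid x.1 ∧ x.1.sum ≤ 2 * x.1.length) RTV :=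
  hardI_SAT3.toHardPr.trans rinst_poly (fun φ _ => ⟨dem_valid φ, dem_sum φ⟩)
    (fun φ _ => rinst_correct φ)

end Pool.Agent.K6.H49.RT
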