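import Pool.Agent.K6.H49.RT.Defs
import Pool.Agent.H741R2.PWCore

/-!
# Few irregular distances give exact offsets
-/

namespace Pool.Agent.K6.H49.RT

open Finset Pool.Agent.H741R2.PW

/-- Some position lies in every window of length `G` if all distances are at most `G`. -/
theorem exists_mem_window {D : ℕ} {P : List ℕ} (hs : P.Pairwise (· < ·)) (hlt : ∀ p ∈ P, p < D)
    (hne : P ≠ []) {G : ℕ} (hG : ∀ j < P.length, distance D P j ≤ G) {T : ℕ} (hT : T + G ≤ D) :
    ∃ p ∈ P, T ≤ p ∧ p < T + G := by
  have hlen : 0 < P.length := List.length_pos_iff.2 hne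
  have hlast : P.getD (P.length - 1) 0 < D := by
    rw [List.getD_eq_getElem _ _ (by omega : P.length - 1 < P.length)]
    exact hlt _ (List.getElem_mem _)
  have hdl := hG (P.length - 1) (by omega)
  unfold distance at hdl
  rw [if_neg (by omega)] at hdl
  by_cases h0 : T ≤ P.getD 0 0
  · refine ⟨P.getD 0 0, ?_, h0, by omega⟩
    rw [List.getD_eq_getElem _ _ hlen]
    exact List.getElem_mem _
  · -- the first index at which the position is at least `T`
    by_cases hex : ∃ j, j < P.length ∧ T ≤ P.getD j 0
    · obtain ⟨hj1, hj2⟩ := Nat.find_spec hex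
      have hj0 : Nat.find hex ≠ 0 := by
        intro h
        rw [h] at hj2
        exact h0 hj2
      have hjm := Nat.find_min hex (m := Nat.find hex - 1) (by omega)
      set j := Nat.find hex
      have h1 : P.getD (j - 1) 0 < T := by
        by_contra h
        exact hjm ⟨by omega, by omega⟩
      have h2 := hG (j - 1) (by omega)
      unfold distance at h2
      rw [if_pos (by omega), show j - 1 + 1 = j by omega] at h2
      refine ⟨P.getD j 0, ?_, hj2, by omega⟩
      rw [List.getD_eq_getElem _ _ hj1]
      exact List.getElem_mem _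
    · push Not at hex
      have h1 := hex (P.length - 1) (by omega)
      omega

theorem next_mem {D : ℕ} {P : List ℕ} {j b : ℕ} (hj : j < P.length)
    (hd : distance D P j = b) (hlt : P.getD j 0 + b < D) : P.getD j 0 + b ∈ P := by
  unfold distance at hd
  split_ifs at hd with h
  · have h1 : P.getD j 0 + b = P.getD (j + 1) 0 := by omega
    rw [h1, List.getD_eq_getElem _ _ h]
    exact List.getElem_mem _
  · omega

variable {ι : Type} [Fintype ι]

/-- **Few irregular distances give exact offsets.** -/
theorem exact_of_gaps (b : ι → ℕ) (hb : ∀ i, 0 < b i) (B : ℕ) (hB : ∀ i, b i ≤ B)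
    (P : ι → List ℕ) (D : ℕ) (hs : ∀ i, (P i).Pairwise (· < ·)) (hlt : ∀ i, ∀ p ∈ P i, p < D)
    (hne : ∀ i, P i ≠ []) (hdisj : ∀ i j p, p ∈ P i → p ∈ P j → i = j) (K : ℕ)
    (hK : ∑ i, ∑ j ∈ range (P i).length, (distance D (P i) j - b i) ^ 2 ≤ (K : ℤ))
    (hD : (K + 1) * (B + K + B * B) ≤ D) : Exact b := by
  classical
  set W := B + K + B * B with hW
  -- a bound for the single distances
  have hG : ∀ i, ∀ j < (P i).length, distance D (P i) j ≤ ((B + K : ℕ) : ℤ) := by
    intro i j hj
    have h1 : (distance D (P i) j - b i) ^ 2 ≤ (K : ℤ) := by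
      refine le_trans ?_ hK
      refine le_trans ?_ (single_le_sum (f := fun i => ∑ j ∈ range (P i).length,
        (distance D (P i) j - b i) ^ 2) (fun i _ => sum_nonneg fun j _ => sq_nonneg _)
        (mem_univ i))
      exact single_le_sum (f := fun j => (distance D (P i) j - b i) ^ 2)
        (fun j _ => sq_nonneg _) (mem_range.2 hj)
    have h2 := hB i
    have h3 : distance D (P i) j - b i ≤ (distance D (P i) j - b i) ^ 2 := by
      nlinarith [sq_nonneg (distance D (P i) j - b i), sq_nonneg (distance D (P i) j - b i - 1),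
        Int.le_self_sq (distance D (P i) j - b i)]
    push_cast
    have h4 : ((b i : ℕ) : ℤ) ≤ B := by exact_mod_cast h2
    linarith
  -- the irregular positions
  let I : Finset ℕ := univ.biUnion fun i =>
    ({j ∈ range (P i).length | distance D (P i) j ≠ b i} : Finset ℕ).image
      (fun j => (P i).getD j 0)
  have hI : #I ≤ K := by
    have h1 : #I ≤ ∑ i, #({j ∈ range (P i).length | distance D (P i) j ≠ b i} : Finset ℕ) :=
      card_biUnion_le.trans (sum_le_sum fun i _ => card_image_le)
    have h2 : ((∑ i, #({j ∈ range (P i).length | distance D (P i) j ≠ b i} : Finset ℕ) : ℕ) : ℤ) ≤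
        ∑ i, ∑ j ∈ range (P i).length, (distance D (P i) j - b i) ^ 2 := by
      push_cast
      refine sum_le_sum fun i _ => ?_
      rw [card_filter]
      push_cast
      refine sum_le_sum fun j _ => ?_
      split_ifs with h
      · have h3 : distance D (P i) j - b i ≠ 0 := fun h4 => h (by linarith)
        have h5 := sq_pos_of_ne_zero h3
        linarith
      · exact sq_nonneg _
    have h3 : ((#I : ℕ) : ℤ) ≤ K := by
      refine le_trans ?_ (h2.trans hK)
      exact_mod_cast h1
    exact_mod_cast h3
  -- a block without irregular positions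
  obtain ⟨k, hk, hblock⟩ : ∃ k ≤ K, ∀ p ∈ I, ¬ (k * W ≤ p ∧ p < (k + 1) * W) := by
    by_contra hno
    push Not at hno
    choose! p hpI hp1 hp2 using hno
    have hinj : Set.InjOn p (range (K + 1) : Set ℕ) := by
      intro k hk l hl hkl
      simp only [coe_range, Set.mem_Iio] at hk hl
      have a1 := hp1 k (by omega)
      have a2 := hp2 k (by omega)
      have a3 := hp1 l (by omega)
      have a4 := hp2 l (by omega)
      rw [hkl] at a1 a2
      by_contra hne
      rcases Nat.lt_or_gt_of_ne hne with h | h
      · have : (k + 1) * W ≤ l * W := Nat.mul_le_mul_right _ h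
        omega
      · have : (l + 1) * W ≤ k * W := Nat.mul_le_mul_right _ h
        omega
    have h1 : #((range (K + 1)).image p) ≤ #I := card_le_card fun x hx => by
      rw [mem_image] at hx
      obtain ⟨k, hk, rfl⟩ := hx
      rw [mem_range] at hk
      exact hpI k (by omega)
    rw [card_image_of_injOn hinj, card_range] at h1
    omega
  set T := k * W with hT
  have hTW : T + W ≤ D := by
    have : (k + 1) * W ≤ (K + 1) * W := Nat.mul_le_mul_right _ (by omega)
    rw [add_mul, one_mul] at this
    omega
  -- the block is regular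
  have hstep : ∀ i p, p ∈ P i → T ≤ p → p + b i < T + W → p + b i ∈ P i := by
    intro i p hp h1 h2
    obtain ⟨j, hj, hjp⟩ := List.getElem_of_mem hp
    have hjp' : (P i).getD j 0 = p := by rw [List.getD_eq_getElem _ _ hj, hjp]
    have hreg : distance D (P i) j = b i := by
      by_contra hirr
      refine hblock p ?_ ⟨h1, by rw [add_mul, one_mul]; omega⟩
      simp only [I, mem_biUnion, mem_univ, true_and, mem_image, mem_filter, mem_range]
      exact ⟨i, j, ⟨hj, hirr⟩, hjp'⟩
    have := next_mem hj hreg (by rw [hjp']; omega)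
    rw [hjp'] at this
    exact this
  -- first occurrences
  have hfirst : ∀ i, ∃ c, c ∈ P i ∧ T ≤ c ∧ c < T + (B + K) := fun i =>
    exists_mem_window (hs i) (hlt i) (hne i) (hG i) (by omega)
  choose c hc1 hc2 hc3 using hfirst
  have hper : ∀ i k, c i + k * b i < T + W → c i + k * b i ∈ P i := by
    intro i k
    induction k with
    | zero => intro _; simpa using hc1 i
    | succ k ih =>
      intro hlt
      have h0 : c i + (k + 1) * b i = c i + k * b i + b i := by ring
      rw [h0] at hlt ⊢
      have h1 := hc2 i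
      exact hstep i _ (ih (by omega)) (by omega) hlt
  refine ⟨c, fun i j hij hmod => hij ?_⟩
  obtain ⟨x, hx1, hx2⟩ := Nat.chineseRemainder' hmod
  set Lc := Nat.lcm (b i) (b j) with hLc
  have hLc0 : 0 < Lc := Nat.lcm_pos (hb i) (hb j)
  have hLcB : Lc ≤ B * B :=
    (Nat.le_of_dvd (Nat.mul_pos (hb i) (hb j)) (Nat.lcm_dvd (Dvd.intro _ rfl)
      (Dvd.intro_left _ rfl))).trans (Nat.mul_le_mul (hB i) (hB j))
  obtain ⟨y, hy1, hy2, hy3⟩ := exists_modEq_window Lc x (T + (B + K)) hLc0
  have hyi : y ≡ c i [MOD b i] := (hy3.of_dvd (Nat.dvd_lcm_left _ _)).trans hx1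
  have hyj : y ≡ c j [MOD b j] := (hy3.of_dvd (Nat.dvd_lcm_right _ _)).trans hx2
  have hget : ∀ i : ι, y ≡ c i [MOD b i] → y ∈ P i := by
    intro i hi
    have h1 : c i ≤ y := by
      have := hc3 i
      omega
    obtain ⟨k, hk⟩ := (Nat.modEq_iff_dvd' h1).1 hi.symm
    have h2 : y = c i + k * b i := by
      rw [mul_comm] at hk
      omega
    rw [h2]
    apply hper
    rw [← h2]
    omega
  exact hdisj i j y (hget i hyi) (hget j hyj)

end Pool.Agent.K6.H49.RT
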