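import Pool.Agent.K6.H49.RT.Sound

/-!
# Small response time variability gives exact offsets
-/

namespace Pool.Agent.K6.H49.RT

open Finset Pool.Agent.H741R2.PW

theorem mem_positions {s : List ℕ} {i p : ℕ} : p ∈ positions s i ↔ s[p]? = some i := by
  unfold positions
  simp only [List.mem_filter, List.mem_range, decide_eq_true_eq]
  constructor
  · rintro ⟨_, h⟩
    exact h
  · intro h
    exact ⟨(List.getElem?_eq_some_iff.1 h).1, h⟩

theorem lt_of_mem_positions {s : List ℕ} {i p : ℕ} (h : p ∈ positions s i) : p < s.length :=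
  (List.getElem?_eq_some_iff.1 (mem_positions.1 h)).1

theorem positions_pairwise (s : List ℕ) (i : ℕ) : (positions s i).Pairwise (· < ·) :=
  List.Pairwise.filter _ List.pairwise_lt_range

theorem length_positions (s : List ℕ) (i : ℕ) : (positions s i).length = s.count i := by
  have h1 : s = (List.range s.length).map (fun p => s.getD p 0) := by
    apply List.ext_getElem
    · simp
    · intro n h1 h2
      simp [List.getD_eq_getElem?_getD, h1]
  conv_rhs => rw [h1]
  unfold positions
  rw [List.count, List.countP_map, List.countP_eq_length_filter]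
  congr 1
  apply List.filter_congr
  intro p hp
  rw [List.mem_range] at hp
  simp only [List.getD_eq_getElem?_getD, Function.comp_apply, List.getElem?_eq_getElem hp,
    Option.some.injEq, Option.getD_some]
  rw [beq_eq_decide]

/-- The irregularity of a model is bounded in terms of its response time variability. -/
theorem sum_sq_le (s : List ℕ) (i b : ℕ) (hb : 0 < b) (hc : s.count i = s.length / b)
    (hD : 2 * b ≤ s.length) :
    (∑ j ∈ range (positions s i).length, ((distance s.length (positions s i) j : ℚ) - b) ^ 2) ≤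
      2 * rtvModel s i + 2 * (b : ℚ) ^ 2 := by
  set D := s.length with hDdef
  set d := s.count i with hd
  have hd2 : 2 ≤ d := by
    rw [hc]
    exact (Nat.le_div_iff_mul_le hb).2 hD
  have hdq : (0 : ℚ) < d := by exact_mod_cast (by omega : 0 < d)
  rw [length_positions, ← hd]
  unfold rtvModel
  rw [← hd, if_neg (by omega), ← hDdef]
  set μ : ℚ := (D : ℚ) / (d : ℚ) with hμ
  -- the deviation of the mean
  have hr : (D : ℚ) = b * d + (D % b : ℕ) := by
    have := Nat.div_add_mod D b
    rw [← hc] at this
    exact_mod_cast this.symm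
  have hμb : μ - b = ((D % b : ℕ) : ℚ) / d := by
    rw [hμ, hr]
    field_simp
    ring
  have hrb : ((D % b : ℕ) : ℚ) ≤ b := by exact_mod_cast (Nat.mod_lt _ hb).le
  have hr0 : (0 : ℚ) ≤ ((D % b : ℕ) : ℚ) := by positivity
  have h1 : (d : ℚ) * (μ - b) ^ 2 ≤ (b : ℚ) ^ 2 := by
    rw [hμb, div_pow, mul_div_assoc', pow_two (d : ℚ), mul_div_mul_left _ _ hdq.ne',
      div_le_iff₀ hdq]
    have h2 : ((D % b : ℕ) : ℚ) ^ 2 ≤ (b : ℚ) ^ 2 := pow_le_pow_left₀ hr0 hrb 2
    have h3 : (1 : ℚ) ≤ d := by exact_mod_cast (by omega : 1 ≤ d)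
    nlinarith [sq_nonneg (b : ℚ)]
  have h2 : ∀ j ∈ range d, ((distance D (positions s i) j : ℚ) - b) ^ 2 ≤
      2 * ((distance D (positions s i) j : ℚ) - μ) ^ 2 + 2 * (μ - b) ^ 2 := by
    intro j _
    nlinarith [sq_nonneg (((distance D (positions s i) j : ℚ) - μ) - (μ - b))]
  refine (sum_le_sum h2).trans ?_
  rw [sum_add_distrib, ← mul_sum, sum_const, card_range, nsmul_eq_mul]
  linarith

theorem rtvModel_nonneg (s : List ℕ) (i : ℕ) : 0 ≤ rtvModel s i := by
  unfold rtvModel
  split_ifs
  · exact le_rfl
  · exact sum_nonneg fun _ _ => sq_nonneg _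

/-- **Soundness.** -/
theorem exact_of_feasible (l : List ℕ) (B : ℕ) (hl : ∀ b ∈ l, 0 < b ∧ b ≤ B) (hB : 0 < B) (nf D : ℕ)
    (hsum : (l.map (fun b => D / b)).sum + nf = D) (R : ℕ)
    (hD : (2 * R + 2 * (l.length * (B * B)) + 1) *
      (B + (2 * R + 2 * (l.length * (B * B))) + B * B) ≤ D)
    (s : List ℕ) (hs : Feasible (l.map (fun b => D / b) ++ List.replicate nf 1) s)
    (hr : rtv (l.map (fun b => D / b) ++ List.replicate nf 1).length s ≤ R) :
    Exact (fun i : Fin l.length => l[i]) := by
  have hDlen : s.length = D := by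
    rw [hs.length, List.sum_append, List.sum_replicate, smul_eq_mul, mul_one, hsum]
  have hD2 : 2 * B ≤ D := by
    refine le_trans ?_ hD
    calc 2 * B ≤ 1 * (B + B * B) := by nlinarith
      _ ≤ _ := Nat.mul_le_mul (by omega) (by omega)
  have hbi : ∀ i : Fin l.length, 0 < l[i] ∧ l[i] ≤ B := fun i => hl _ (List.getElem_mem _)
  have hcount : ∀ i : Fin l.length, s.count (i : ℕ) = s.length / l[i] := by
    intro i
    have h1 := hs.count i (by rw [List.length_append, List.length_map]; omega)
    rw [h1, hDlen, List.getElem_append_left (by simp)]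
    simp
  refine exact_of_gaps (fun i : Fin l.length => l[i]) (fun i => (hbi i).1) B (fun i => (hbi i).2)
    (fun i => positions s i) D (fun i => positions_pairwise _ _)
    (fun i p hp => by rw [← hDlen]; exact lt_of_mem_positions hp) ?_ ?_
    (2 * R + 2 * (l.length * (B * B))) ?_ hD
  · intro i h
    have h1 := congrArg List.length h
    rw [length_positions, hcount, hDlen, List.length_nil, Nat.div_eq_zero_iff] at h1
    have := hbi i
    omega
  · intro i j p hi hj
    rw [mem_positions] at hi hj
    rw [hi] at hj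
    exact Fin.ext (Option.some.inj hj)
  · have h1 : ∀ i : Fin l.length, (∑ j ∈ range (positions s i).length,
        ((distance D (positions s i) j : ℚ) - (l[i] : ℕ)) ^ 2) ≤
        2 * rtvModel s i + 2 * (B : ℚ) ^ 2 := by
      intro i
      have h2 := sum_sq_le s i l[i] (hbi i).1 (hcount i) (by
        rw [hDlen]
        have := (hbi i).2
        omega)
      rw [hDlen] at h2
      refine h2.trans ?_
      have h3 : ((l[i] : ℕ) : ℚ) ≤ B := by exact_mod_cast (hbi i).2
      have h4 : ((l[i] : ℕ) : ℚ) ^ 2 ≤ (B : ℚ) ^ 2 := pow_le_pow_left₀ (by positivity) h3 2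
      linarith
    have h2 : ∑ i : Fin l.length, rtvModel s i ≤ R := by
      refine le_trans ?_ hr
      unfold rtv
      rw [Fin.sum_univ_eq_sum_range (fun i => rtvModel s i)]
      exact sum_le_sum_of_subset_of_nonneg (by
        intro x hx
        rw [mem_range] at *
        rw [List.length_append, List.length_map]
        omega) fun i _ _ => rtvModel_nonneg s i
    have h3 : (∑ i : Fin l.length, ∑ j ∈ range (positions s i).length,
        ((distance D (positions s i) j : ℚ) - (l[i] : ℕ)) ^ 2) ≤
        2 * R + 2 * (l.length * (B * B)) := by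
      refine (sum_le_sum fun i _ => h1 i).trans ?_
      rw [sum_add_distrib, ← mul_sum, sum_const, card_univ, Fintype.card_fin, nsmul_eq_mul]
      have : (l.length : ℚ) * (2 * (B : ℚ) ^ 2) = 2 * (l.length * (B * B)) := by ring
      rw [this]
      linarith
    exact_mod_cast h3

end Pool.Agent.K6.H49.RT
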